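import Mathlib

set_option autoImplicit false

open MvPolynomial

namespace Pool.Agent.Lib.MP_b669e1_gt

/-- Functions of `(a, t)`, `a > 0`, which after multiplication by a power of `a` are given at each
point by one of finitely many polynomials in `(a, t)`. -/
def FP (f : ℝ → ℝ → ℝ) : Prop :=
  ∃ (N : ℕ) (S : Finset (MvPolynomial (Fin 2) ℝ)), ∀ a t : ℝ, 0 < a →
    ∃ H ∈ S, a ^ N * f a t = eval ![a, t] H

theorem FP.const (c : ℝ) : FP (fun _ _ => c) := by
  refine ⟨0, {C c}, fun a t _ => ⟨C c, by simp, by simp⟩⟩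

theorem FP.fst : FP (fun a _ => a) := by
  refine ⟨0, {X 0}, fun a t _ => ⟨X 0, by simp, by simp⟩⟩

theorem FP.inv_fst : FP (fun a _ => a⁻¹) := by
  refine ⟨1, {1}, fun a t ha => ⟨1, by simp, ?_⟩⟩
  simp only [pow_one, map_one]
  exact mul_inv_cancel₀ ha.ne'

theorem FP.add {f g : ℝ → ℝ → ℝ} (hf : FP f) (hg : FP g) : FP (fun a t => f a t + g a t) := by
  classical
  obtain ⟨N, S, hS⟩ := hf
  obtain ⟨M, T, hT⟩ := hg
  refine ⟨N + M, Finset.image₂ (fun H G => X 0 ^ M * H + X 0 ^ N * G) S T, ?_⟩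
  intro a t ha
  obtain ⟨H, hH, hHe⟩ := hS a t ha
  obtain ⟨G, hG, hGe⟩ := hT a t ha
  refine ⟨_, Finset.mem_image₂_of_mem hH hG, ?_⟩
  simp only [map_add, map_mul, map_pow, eval_X, Matrix.cons_val_zero]
  rw [← hHe, ← hGe]
  ring

theorem FP.mul {f g : ℝ → ℝ → ℝ} (hf : FP f) (hg : FP g) : FP (fun a t => f a t * g a t) := by
  classical
  obtain ⟨N, S, hS⟩ := hf
  obtain ⟨M, T, hT⟩ := hg
  refine ⟨N + M, Finset.image₂ (fun H G => H * G) S T, ?_⟩
  intro a t ha
  obtain ⟨H, hH, hHe⟩ := hS a t ha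
  obtain ⟨G, hG, hGe⟩ := hT a t ha
  refine ⟨_, Finset.mem_image₂_of_mem hH hG, ?_⟩
  simp only [map_mul]
  rw [← hHe, ← hGe]
  ring

theorem FP.pow {f : ℝ → ℝ → ℝ} (hf : FP f) (n : ℕ) : FP (fun a t => f a t ^ n) := by
  induction n with
  | zero => simpa using FP.const 1
  | succ n ih =>
    simp only [pow_succ]
    exact ih.mul hf

theorem FP.neg {f : ℝ → ℝ → ℝ} (hf : FP f) : FP (fun a t => - f a t) := by
  have := (FP.const (-1)).mul hf
  simpa using this

theorem FP.sub {f g : ℝ → ℝ → ℝ} (hf : FP f) (hg : FP g) : FP (fun a t => f a t - g a t) := by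
  have := hf.add hg.neg
  simpa [sub_eq_add_neg] using this

theorem FP.sum {ι : Type*} (s : Finset ι) (f : ι → ℝ → ℝ → ℝ) (hf : ∀ i ∈ s, FP (f i)) :
    FP (fun a t => ∑ i ∈ s, f i a t) := by
  classical
  induction s using Finset.induction_on with
  | empty => simpa using FP.const 0
  | insert i s hi ih =>
    simp only [Finset.sum_insert hi]
    exact (hf i (Finset.mem_insert_self _ _)).add
      (ih fun j hj => hf j (Finset.mem_insert_of_mem hj))

/-- Piecewise polynomial functions of one variable. -/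
def PP (h : ℝ → ℝ) : Prop := ∃ S : Finset (Polynomial ℝ), ∀ c, ∃ p ∈ S, h c = p.eval c

theorem PP.add {f g : ℝ → ℝ} (hf : PP f) (hg : PP g) : PP (fun c => f c + g c) := by
  classical
  obtain ⟨S, hS⟩ := hf
  obtain ⟨T, hT⟩ := hg
  refine ⟨Finset.image₂ (· + ·) S T, fun c => ?_⟩
  obtain ⟨p, hp, hpe⟩ := hS c
  obtain ⟨q, hq, hqe⟩ := hT c
  exact ⟨_, Finset.mem_image₂_of_mem hp hq, by simp [hpe, hqe]⟩

theorem PP.const_mul {f : ℝ → ℝ} (hf : PP f) (b : ℝ) : PP (fun c => b * f c) := by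
  classical
  obtain ⟨S, hS⟩ := hf
  refine ⟨S.image (fun p => Polynomial.C b * p), fun c => ?_⟩
  obtain ⟨p, hp, hpe⟩ := hS c
  exact ⟨_, Finset.mem_image_of_mem _ hp, by simp [hpe]⟩

theorem PP.comp_add {h : ℝ → ℝ} (hh : PP h) (b : ℝ) : FP (fun a t => h (t + b * a)) := by
  classical
  obtain ⟨S, hS⟩ := hh
  refine ⟨0, S.image (fun p => Polynomial.aeval (X 1 + C b * X 0) p), fun a t _ => ?_⟩
  obtain ⟨p, hp, hpe⟩ := hS (t + b * a)
  refine ⟨_, Finset.mem_image_of_mem _ hp, ?_⟩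
  show a ^ 0 * h (t + b * a) = _
  rw [hpe, pow_zero, one_mul]
  have h1 : ∀ q : Polynomial ℝ, eval ![a, t] (Polynomial.aeval (X 1 + C b * X 0) q) =
      q.eval (t + b * a) := by
    intro q
    induction q using Polynomial.induction_on' with
    | add q r hq hr => simp [hq, hr]
    | monomial n c => simp [Polynomial.aeval_monomial, MvPolynomial.algebraMap_eq]
  rw [h1]

/-- Every polynomial in `X` over `R` is, modulo `X ^ 2 - s`, of the form `A + B X`. -/
theorem exists_quadratic_reduction {R : Type*} [CommRing R] (s : R) (F : Polynomial R) :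
    ∃ A B : R, ∀ (φ : R →+* ℝ) (a : ℝ), a ^ 2 = φ s → F.eval₂ φ a = φ A + φ B * a := by
  induction F using Polynomial.induction_on' with
  | add p q hp hq =>
    obtain ⟨A, B, h⟩ := hp
    obtain ⟨A', B', h'⟩ := hq
    refine ⟨A + A', B + B', fun φ a ha => ?_⟩
    rw [Polynomial.eval₂_add, h φ a ha, h' φ a ha, map_add, map_add]
    ring
  | monomial n c =>
    rcases Nat.even_or_odd' n with ⟨k, rfl | rfl⟩
    · refine ⟨c * s ^ k, 0, fun φ a ha => ?_⟩
      rw [Polynomial.eval₂_monomial, pow_mul, ha]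
      simp
    · refine ⟨0, c * s ^ k, fun φ a ha => ?_⟩
      rw [Polynomial.eval₂_monomial, pow_succ, pow_mul, ha]
      simp
      ring

/-- The norm trick: a polynomial in `a`, with `a ^ 2 = s`, becomes a polynomial in `s`. -/
theorem exists_norm {R : Type*} [CommRing R] (s : R) (F : Polynomial R) :
    ∃ N : R, ∀ (φ : R →+* ℝ) (a : ℝ), a ^ 2 = φ s →
      φ N = F.eval₂ φ a * F.eval₂ φ (-a) := by
  obtain ⟨A, B, h⟩ := exists_quadratic_reduction s F
  refine ⟨A ^ 2 - s * B ^ 2, fun φ a ha => ?_⟩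
  rw [h φ a ha, h φ (-a) (by rw [neg_sq]; exact ha)]
  rw [map_sub, map_mul, map_pow, map_pow, ← ha]
  ring

/-- If `f` is in the class `FP`, there is a polynomial `Φ` that kills every `w` of the form
`f √s t` or `f √s (-t)`. -/
theorem FP.exists_poly {V : Type*} [DecidableEq V] (s : MvPolynomial V ℝ) (it iw : V) (hne : it ≠ iw)
    {f : ℝ → ℝ → ℝ} (hf : FP f) :
    ∃ Φ : MvPolynomial V ℝ,
      (∀ x : V → ℝ, ∀ a : ℝ, 0 ≤ a → a ^ 2 = eval x s →
        (x iw = f a (x it) ∨ x iw = f a (- x it) ∨ a = 0) → eval x Φ = 0) ∧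
      (∀ x : V → ℝ, (∀ w, eval (Function.update x iw w) s = 1) → x it = 0 →
        ∃ w, eval (Function.update x iw w) Φ ≠ 0) := by
  classical
  obtain ⟨N, S, hS⟩ := hf
  let R := MvPolynomial V ℝ
  -- substitute
  let sub : R → MvPolynomial (Fin 2) ℝ → Polynomial R := fun τ H =>
    MvPolynomial.aeval ![Polynomial.X, Polynomial.C τ] H
  have hsub : ∀ (τ : R) (H : MvPolynomial (Fin 2) ℝ) (x : V → ℝ) (a : ℝ),
      (sub τ H).eval₂ (eval x) a = eval ![a, eval x τ] H := by
    intro τ H x a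
    show Polynomial.eval₂ (eval x) a (MvPolynomial.aeval ![Polynomial.X, Polynomial.C τ] H) = _
    induction H using MvPolynomial.induction_on with
    | C c =>
      have h0 : (algebraMap ℝ R) c = C c := rfl
      simp [Polynomial.algebraMap_apply, h0]
    | add p q hp hq =>
      rw [map_add, Polynomial.eval₂_add, hp, hq, map_add]
    | mul_X p n hp =>
      rw [map_mul, Polynomial.eval₂_mul, hp, map_mul]
      congr 1
      fin_cases n <;> simp
  let F : Polynomial R := ∏ H ∈ S,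
    ((Polynomial.X ^ N * Polynomial.C (X iw) - sub (X it) H) *
      (Polynomial.X ^ N * Polynomial.C (X iw) - sub (- X it) H))
  have hF : ∀ (x : V → ℝ) (a : ℝ), F.eval₂ (eval x) a = ∏ H ∈ S,
      ((a ^ N * x iw - eval ![a, x it] H) * (a ^ N * x iw - eval ![a, - x it] H)) := by
    intro x a
    rw [Polynomial.eval₂_finsetProd]
    refine Finset.prod_congr rfl fun H _ => ?_
    rw [Polynomial.eval₂_mul, Polynomial.eval₂_sub, Polynomial.eval₂_sub, hsub, hsub,
      Polynomial.eval₂_mul, Polynomial.eval₂_pow, Polynomial.eval₂_X, Polynomial.eval₂_C,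
      eval_X, map_neg, eval_X]
  obtain ⟨G, hG⟩ := exists_norm s F
  refine ⟨s * G, ?_, ?_⟩
  · intro x a ha0 ha h
    rcases ha0.eq_or_lt with ha1 | ha1
    · rw [map_mul, ← ha, ← ha1]
      simp
    · have hF0 : F.eval₂ (eval x) a = 0 := by
        rw [hF]
        rcases h with h | h | h
        · obtain ⟨H, hH, hHe⟩ := hS a (x it) ha1
          refine Finset.prod_eq_zero hH ?_
          rw [h, hHe]
          ring
        · obtain ⟨H, hH, hHe⟩ := hS a (- x it) ha1
          refine Finset.prod_eq_zero hH ?_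
          rw [h, hHe]
          ring
        · exact (ha1.ne' h).elim
      rw [map_mul, hG (eval x) a ha, hF0]
      ring
  · intro x hx hxt
    -- choose `w` larger than all the values
    let B : ℝ := ∑ H ∈ S, (|eval ![1, 0] H| + |eval ![-1, 0] H|)
    refine ⟨B + 1, ?_⟩
    set x' := Function.update x iw (B + 1) with hx'
    have h1 : x' iw = B + 1 := by simp [hx']
    have h2 : x' it = 0 := by
      rw [hx', Function.update_of_ne hne]
      exact hxt
    have hs : eval x' s = 1 := hx _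
    rw [map_mul, hs, one_mul, hG (eval x') 1 (by rw [hs]; norm_num), hF, hF, h1, h2]
    have hB : ∀ H ∈ S, |eval ![1, 0] H| ≤ B ∧ |eval ![-1, 0] H| ≤ B := by
      intro H hH
      have h3 : |eval ![1, 0] H| + |eval ![-1, 0] H| ≤ B :=
        Finset.single_le_sum (f := fun H : MvPolynomial (Fin 2) ℝ =>
          |eval ![1, 0] H| + |eval ![-1, 0] H|) (fun i _ => by positivity) hH
      constructor
      · linarith [abs_nonneg (eval ![-1, 0] H)]
      · linarith [abs_nonneg (eval ![1, 0] H)]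
    have hB0 : 0 ≤ B := Finset.sum_nonneg fun i _ => by positivity
    have hne1 : ∀ e : ℝ, (e = 1 ∨ e = -1) → ∀ v : ℝ, |v| ≤ B → e * (B + 1) - v ≠ 0 := by
      intro e he v hv h0
      have hv' := abs_le.1 hv
      rcases he with he | he <;> rw [he] at h0 <;> linarith [hv'.1, hv'.2]
    have hpow : (-1 : ℝ) ^ N = 1 ∨ (-1 : ℝ) ^ N = -1 := neg_one_pow_eq_or ℝ N
    refine mul_ne_zero ?_ ?_
    · refine Finset.prod_ne_zero_iff.2 fun H hH => ?_
      rw [neg_zero, one_pow]
      exact mul_ne_zero (hne1 1 (Or.inl rfl) _ (hB H hH).1) (hne1 1 (Or.inl rfl) _ (hB H hH).1)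
    · refine Finset.prod_ne_zero_iff.2 fun H hH => ?_
      rw [neg_zero]
      exact mul_ne_zero (hne1 _ hpow _ (hB H hH).2) (hne1 _ hpow _ (hB H hH).2)

end Pool.Agent.Lib.MP_b669e1_gt
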