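import Pool.Agent.Lib.MP_b669e1_gt.Section

set_option autoImplicit false

open MeasureTheory Module

open scoped RealInnerProductSpace ENNReal Pointwise

namespace Pool.Agent.Lib.MP_b669e1_gt

/-! ### The piecewise polynomial nature of the ball integrals -/

/-- The closed formula for the ball integrals. -/
noncomputable def GG (m : ℕ) (ε : ℝ) (α β : ℕ) (δ a t : ℝ) : ℝ :=
  ∑ l ∈ Finset.range (α + 1), ∑ i ∈ Finset.range (α - l + 1),
    ((α.choose l : ℝ) * ((α - l).choose i : ℝ) * mom m l) * (1 - a ^ 2) ^ (l / 2) * (δ * a) ^ i *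
      hInt ε β (Polynomial.X ^ i * (Polynomial.C (ε ^ 2) - Polynomial.X ^ 2) ^ ((m + 1 + l) / 2))
        (t + δ * a)

theorem fp_GG (m : ℕ) (ε : ℝ) (hε : 0 < ε) (α β : ℕ) (hβ : β ≠ 0) (δ : ℝ) :
    FP (GG m ε α β δ) := by
  refine FP.sum _ _ fun l _ => FP.sum _ _ fun i _ => ?_
  refine FP.mul (FP.mul (FP.mul (FP.const _) ?_) ?_) ?_
  · exact ((FP.const 1).sub (FP.fst.pow 2)).pow _
  · exact ((FP.const δ).mul FP.fst).pow _
  · exact (hInt_pp ε hε β hβ _).comp_add δ

theorem sqrt_pow_even (x : ℝ) (hx : 0 ≤ x) (n : ℕ) (hn : Even n) : √x ^ n = x ^ (n / 2) := by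
  obtain ⟨k, rfl⟩ := hn
  rw [← two_mul, pow_mul, Real.sq_sqrt hx]
  congr 1
  omega

theorem GG_eq (m : ℕ) (hm : Odd m) (ε : ℝ) (hε : 0 < ε) (α β : ℕ) (δ a t : ℝ)
    (hδ : δ = 1 ∨ δ = -1) (ha : 0 < a) (ha1 : a ≤ 1) :
    ∫ σ in (-ε)..ε, (max (t + δ * a + σ) 0) ^ β * ∑ l ∈ Finset.range (α + 1),
        (1 + σ * (δ * a)) ^ (α - l) * (√(ε ^ 2 - σ ^ 2) ^ (m + 1 + l) *
          √(1 - (δ * a) ^ 2) ^ l * mom m l) * (α.choose l) = GG m ε α β δ a t := by
  have hδ2 : (δ * a) ^ 2 = a ^ 2 := by
    rcases hδ with h | h <;> rw [h] <;> ring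
  have h1 : Set.EqOn (fun σ => (max (t + δ * a + σ) 0) ^ β * ∑ l ∈ Finset.range (α + 1),
        (1 + σ * (δ * a)) ^ (α - l) * (√(ε ^ 2 - σ ^ 2) ^ (m + 1 + l) *
          √(1 - (δ * a) ^ 2) ^ l * mom m l) * (α.choose l))
      (fun σ => ∑ l ∈ Finset.range (α + 1), ∑ i ∈ Finset.range (α - l + 1),
        (((α.choose l : ℝ) * ((α - l).choose i : ℝ) * mom m l) * (1 - a ^ 2) ^ (l / 2) *
          (δ * a) ^ i) * ((max (t + δ * a + σ) 0) ^ β * (Polynomial.X ^ i *
            (Polynomial.C (ε ^ 2) - Polynomial.X ^ 2) ^ ((m + 1 + l) / 2)).eval σ))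
      (Set.uIcc (-ε) ε) := by
    intro σ hσ
    rw [Set.uIcc_of_le (by linarith)] at hσ
    have h4 : 0 ≤ ε ^ 2 - σ ^ 2 := by
      have : σ ^ 2 ≤ ε ^ 2 := by
        rw [sq_le_sq, abs_of_pos hε]
        exact abs_le.2 hσ
      linarith
    simp only
    rw [Finset.mul_sum]
    refine Finset.sum_congr rfl fun l _ => ?_
    rcases Nat.even_or_odd l with hl | hl
    · have hml : Even (m + 1 + l) := (hm.add_odd odd_one).add hl
      rw [sqrt_pow_even _ h4 _ hml, hδ2, sqrt_pow_even _ (by nlinarith) _ hl]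
      rw [show (1 + σ * (δ * a)) = σ * (δ * a) + 1 by ring, add_pow, Finset.sum_mul,
        Finset.sum_mul, Finset.mul_sum]
      refine Finset.sum_congr rfl fun i _ => ?_
      simp only [Polynomial.eval_mul, Polynomial.eval_pow, Polynomial.eval_X,
        Polynomial.eval_sub, Polynomial.eval_C, one_pow, mul_one, mul_pow]
      ring
    · rw [mom_odd m l hl]
      simp
  rw [intervalIntegral.integral_congr h1, GG]
  rw [intervalIntegral.integral_finsetSum]
  · refine Finset.sum_congr rfl fun l _ => ?_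
    rw [intervalIntegral.integral_finsetSum]
    · refine Finset.sum_congr rfl fun i _ => ?_
      rw [intervalIntegral.integral_const_mul, hInt]
    · intro i _
      exact (intervalIntegrable_hInt ε β _ _ _ _).const_mul _
  · intro l _
    apply Continuous.intervalIntegrable
    refine continuous_finsetSum _ fun i _ => ?_
    refine Continuous.mul continuous_const (Continuous.mul (by fun_prop) ?_)
    exact Polynomial.continuous _

/-! ### The length integral -/

/-- `Z j r z = ∫_0^z (x (2 r - x))^j dx`. -/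
noncomputable def ZZ (j : ℕ) (r z : ℝ) : ℝ := ∫ x in (0 : ℝ)..z, (x * (2 * r - x)) ^ j

theorem ZZ_zero (j : ℕ) (r : ℝ) : ZZ j r 0 = 0 := by simp [ZZ]

theorem ZZ_eq_sum (j : ℕ) (r z : ℝ) : ZZ j r z = ∑ i ∈ Finset.range (j + 1),
    ((j.choose i : ℝ) * 2 ^ i * (-1) ^ (j - i) / ((2 * j - i : ℕ) + 1)) * r ^ i *
      z ^ (2 * j - i + 1) := by
  have h1 : ∀ x : ℝ, (x * (2 * r - x)) ^ j = ∑ i ∈ Finset.range (j + 1),
      ((j.choose i : ℝ) * 2 ^ i * (-1) ^ (j - i) * r ^ i) * x ^ (2 * j - i) := by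
    intro x
    rw [show x * (2 * r - x) = (2 * r * x) + (- x ^ 2) by ring, add_pow]
    refine Finset.sum_congr rfl fun i hi => ?_
    have hi' : i ≤ j := by
      have := Finset.mem_range.1 hi
      omega
    have h2 : 2 * j - i = i + 2 * (j - i) := by omega
    rw [h2, neg_pow, pow_add, pow_mul, mul_pow, mul_pow]
    ring
  simp only [ZZ, h1]
  rw [intervalIntegral.integral_finsetSum]
  · refine Finset.sum_congr rfl fun i _ => ?_
    rw [intervalIntegral.integral_const_mul, integral_pow]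
    rw [zero_pow (by omega), sub_zero]
    ring
  · intro i _
    apply Continuous.intervalIntegrable
    fun_prop

theorem continuous_ZZ (j : ℕ) : Continuous fun p : ℝ × ℝ => ZZ j p.1 p.2 := by
  simp only [ZZ_eq_sum]
  fun_prop

/-- The value of the length integral. -/
noncomputable def Dval (j : ℕ) (r u : ℝ) : ℝ :=
  r * (ZZ j r (max (u + r) 0) - ZZ j (-r) (max (u - r) 0))

theorem integral_shift (j : ℕ) (r a b : ℝ) :
    ∫ s in a..b, (r ^ 2 - s ^ 2) ^ j = ∫ x in (a + r)..(b + r), (x * (2 * r - x)) ^ j := by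
  rw [← intervalIntegral.integral_comp_add_right (fun x => (x * (2 * r - x)) ^ j)]
  refine intervalIntegral.integral_congr fun s _ => ?_
  show (r ^ 2 - s ^ 2) ^ j = ((s + r) * (2 * r - (s + r))) ^ j
  congr 1
  ring

theorem Dval_eq (j : ℕ) (r u : ℝ) (hr : 0 < r) :
    ∫ s in Set.Iic u, dens j s r = Dval j r u := by
  have h0 : ∀ s, dens j s r = (Set.Ioo (-r) r).indicator (fun s => r * (r ^ 2 - s ^ 2) ^ j) s := by
    intro s
    unfold dens
    by_cases h : |s| < r
    · rw [if_pos h, Set.indicator_of_mem (show s ∈ Set.Ioo (-r) r from abs_lt.1 h)]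
    · rw [if_neg h, Set.indicator_of_notMem
        (fun hs : s ∈ Set.Ioo (-r) r => h (abs_lt.2 hs))]
  have h1 : ∫ s in Set.Iic u, dens j s r =
      ∫ s in Set.Ioo (-r) r ∩ Set.Iic u, r * (r ^ 2 - s ^ 2) ^ j := by
    simp only [h0]
    rw [setIntegral_indicator measurableSet_Ioo, Set.inter_comm]
  rw [h1]
  rcases le_or_gt u (-r) with hu | hu
  · have : Set.Ioo (-r) r ∩ Set.Iic u = ∅ := by
      ext s
      constructor
      · rintro ⟨h2, h3⟩
        have h4 : s ≤ u := h3
        linarith [h2.1]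
      · intro h; exact h.elim
    rw [this, Dval, max_eq_right (by linarith), max_eq_right (by linarith), ZZ_zero, ZZ_zero]
    simp
  · rcases le_or_gt r u with hu2 | hu2
    · have h2 : Set.Ioo (-r) r ∩ Set.Iic u = Set.Ioo (-r) r := by
        refine Set.inter_eq_left.2 fun s hs => ?_
        exact (hs.2.le.trans hu2)
      rw [h2, integral_const_mul, ← integral_Ioc_eq_integral_Ioo,
        ← intervalIntegral.integral_of_le (by linarith), integral_shift, Dval,
        max_eq_left (by linarith), max_eq_left (by linarith)]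
      congr 1
      have h3 : ZZ j r (u + r) = ZZ j r (2 * r) + ZZ j (-r) (u - r) := by
        have hi : ∀ a b : ℝ, IntervalIntegrable (fun x => (x * (2 * r - x)) ^ j) volume a b := by
          intro a b
          apply Continuous.intervalIntegrable
          fun_prop
        rw [ZZ, ← intervalIntegral.integral_add_adjacent_intervals (hi 0 (2 * r))
          (hi (2 * r) (u + r)), ZZ, ZZ]
        congr 1
        have h4 := intervalIntegral.integral_comp_add_right (a := 0) (b := u - r)
          (fun x => (x * (2 * r - x)) ^ j) (2 * r)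
        rw [show (0 : ℝ) + 2 * r = 2 * r by ring, show u - r + 2 * r = u + r by ring] at h4
        rw [← h4]
        refine intervalIntegral.integral_congr fun s _ => ?_
        show ((s + 2 * r) * (2 * r - (s + 2 * r))) ^ j = (s * (2 * (-r) - s)) ^ j
        congr 1
        ring
      rw [h3, show -r + r = (0 : ℝ) by ring, show r + r = 2 * r by ring, ← ZZ]
      ring
    · have h2 : Set.Ioo (-r) r ∩ Set.Iic u = Set.Ioc (-r) u := by
        ext s
        constructor
        · rintro ⟨h2, h3⟩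
          exact ⟨h2.1, h3⟩
        · rintro ⟨h2, h3⟩
          exact ⟨⟨h2, lt_of_le_of_lt h3 hu2⟩, h3⟩
      rw [h2, integral_const_mul, ← intervalIntegral.integral_of_le hu.le, integral_shift, Dval,
        max_eq_left (by linarith), max_eq_right (by linarith), ZZ_zero, sub_zero,
        show -r + r = (0 : ℝ) by ring, ← ZZ]

end Pool.Agent.Lib.MP_b669e1_gt
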