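import Pool.Agent.Lib.MP_b669e1_gt.Algebra

set_option autoImplicit false

open MeasureTheory intervalIntegral

namespace Pool.Agent.Lib.MP_b669e1_gt

/-- `∫_{-ε}^{ε} (c + σ)_+^β q(σ) dσ`. -/
noncomputable def hInt (ε : ℝ) (β : ℕ) (q : Polynomial ℝ) (c : ℝ) : ℝ :=
  ∫ σ in (-ε)..ε, (max (c + σ) 0) ^ β * q.eval σ

theorem intervalIntegrable_hInt (ε : ℝ) (β : ℕ) (q : Polynomial ℝ) (c a b : ℝ) :
    IntervalIntegrable (fun σ => (max (c + σ) 0) ^ β * q.eval σ) volume a b := by
  apply Continuous.intervalIntegrable
  have : Continuous fun σ => q.eval σ := q.continuous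
  fun_prop

/-- The polynomial in `c` which is `∫_{l(c)}^{u(c)} (c + σ)^β σ^i dσ`. -/
noncomputable def polyInt (β i : ℕ) (l u : Polynomial ℝ) : Polynomial ℝ :=
  ∑ m ∈ Finset.range (β + 1), Polynomial.C ((β.choose m : ℝ) / ((β - m + i : ℕ) + 1)) *
    Polynomial.X ^ m * (u ^ (β - m + i + 1) - l ^ (β - m + i + 1))

theorem polyInt_eval (β i : ℕ) (l u : Polynomial ℝ) (c : ℝ) :
    (polyInt β i l u).eval c = ∫ σ in (l.eval c)..(u.eval c), (c + σ) ^ β * σ ^ i := by
  have h1 : ∀ σ : ℝ, (c + σ) ^ β * σ ^ i =
      ∑ m ∈ Finset.range (β + 1), (β.choose m : ℝ) * c ^ m * σ ^ (β - m + i) := by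
    intro σ
    rw [add_pow, Finset.sum_mul]
    refine Finset.sum_congr rfl fun m _ => ?_
    rw [pow_add]
    ring
  simp only [h1]
  rw [intervalIntegral.integral_finset_sum]
  · rw [polyInt, Polynomial.eval_finset_sum]
    refine Finset.sum_congr rfl fun m _ => ?_
    rw [intervalIntegral.integral_const_mul, integral_pow]
    simp only [Polynomial.eval_mul, Polynomial.eval_C, Polynomial.eval_pow, Polynomial.eval_X,
      Polynomial.eval_sub]
    ring
  · intro m _
    apply Continuous.intervalIntegrable
    fun_prop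

theorem hInt_monomial_pp (ε : ℝ) (hε : 0 < ε) (β : ℕ) (hβ : β ≠ 0) (i : ℕ) :
    PP (hInt ε β (Polynomial.X ^ i)) := by
  classical
  refine ⟨{0, polyInt β i (Polynomial.C (-ε)) (Polynomial.C ε),
    polyInt β i (-Polynomial.X) (Polynomial.C ε)}, fun c => ?_⟩
  rcases le_or_gt c (-ε) with h1 | h1
  · refine ⟨0, by simp, ?_⟩
    rw [hInt, Polynomial.eval_zero]
    have : Set.EqOn (fun σ => (max (c + σ) 0) ^ β * (Polynomial.X ^ i : Polynomial ℝ).eval σ)
        (fun _ => (0 : ℝ)) (Set.uIcc (-ε) ε) := by
      intro σ hσ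
      rw [Set.uIcc_of_le (by linarith)] at hσ
      have : max (c + σ) 0 = 0 := max_eq_right (by linarith [hσ.2])
      simp only [this, zero_pow hβ, zero_mul]
    rw [intervalIntegral.integral_congr this]
    simp
  · rcases le_or_gt ε c with h2 | h2
    · refine ⟨polyInt β i (Polynomial.C (-ε)) (Polynomial.C ε), by simp, ?_⟩
      rw [polyInt_eval, Polynomial.eval_C, Polynomial.eval_C, hInt]
      refine intervalIntegral.integral_congr ?_
      intro σ hσ
      rw [Set.uIcc_of_le (by linarith)] at hσ
      have : max (c + σ) 0 = c + σ := max_eq_left (by linarith [hσ.1])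
      simp only [this, Polynomial.eval_pow, Polynomial.eval_X]
    · refine ⟨polyInt β i (-Polynomial.X) (Polynomial.C ε), by simp, ?_⟩
      rw [polyInt_eval, Polynomial.eval_C, Polynomial.eval_neg, Polynomial.eval_X, hInt]
      rw [← intervalIntegral.integral_add_adjacent_intervals (a := -ε) (b := -c) (c := ε)
        (intervalIntegrable_hInt ε β _ c _ _) (intervalIntegrable_hInt ε β _ c _ _)]
      have e1 : ∫ σ in (-ε)..(-c), (max (c + σ) 0) ^ β *
          (Polynomial.X ^ i : Polynomial ℝ).eval σ = 0 := by
        have : Set.EqOn (fun σ => (max (c + σ) 0) ^ β * (Polynomial.X ^ i : Polynomial ℝ).eval σ)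
            (fun _ => (0 : ℝ)) (Set.uIcc (-ε) (-c)) := by
          intro σ hσ
          rw [Set.uIcc_of_le (by linarith)] at hσ
          have : max (c + σ) 0 = 0 := max_eq_right (by linarith [hσ.2])
          simp only [this, zero_pow hβ, zero_mul]
        rw [intervalIntegral.integral_congr this]
        simp
      rw [e1, zero_add]
      refine intervalIntegral.integral_congr ?_
      intro σ hσ
      rw [Set.uIcc_of_le (by linarith)] at hσ
      have : max (c + σ) 0 = c + σ := max_eq_left (by linarith [hσ.1])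
      simp only [this, Polynomial.eval_pow, Polynomial.eval_X]

theorem hInt_pp (ε : ℝ) (hε : 0 < ε) (β : ℕ) (hβ : β ≠ 0) (q : Polynomial ℝ) :
    PP (hInt ε β q) := by
  induction q using Polynomial.induction_on' with
  | add p q hp hq =>
    have : hInt ε β (p + q) = fun c => hInt ε β p c + hInt ε β q c := by
      funext c
      rw [hInt, hInt, hInt, ← intervalIntegral.integral_add
        (intervalIntegrable_hInt ε β p c _ _) (intervalIntegrable_hInt ε β q c _ _)]
      refine intervalIntegral.integral_congr fun σ _ => ?_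
      simp only [Polynomial.eval_add]
      ring
    rw [this]
    exact hp.add hq
  | monomial n b =>
    have : hInt ε β (Polynomial.monomial n b) = fun c => b * hInt ε β (Polynomial.X ^ n) c := by
      funext c
      rw [hInt, hInt, ← intervalIntegral.integral_const_mul]
      refine intervalIntegral.integral_congr fun σ _ => ?_
      simp only [Polynomial.eval_monomial, Polynomial.eval_pow, Polynomial.eval_X]
      ring
    rw [this]
    exact (hInt_monomial_pp ε hε β hβ n).const_mul b

end Pool.Agent.Lib.MP_b669e1_gt
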