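import Pool.Agent.Lib.MP_b669e1_gt.Split

set_option autoImplicit false

open MeasureTheory Module

open scoped RealInnerProductSpace ENNReal Pointwise

namespace Pool.Agent.Lib.MP_b669e1_gt

/-! ### Isometries -/

theorem exists_isometry {F F' : Type*} [NormedAddCommGroup F] [InnerProductSpace ℝ F]
    [FiniteDimensional ℝ F]
    [NormedAddCommGroup F'] [InnerProductSpace ℝ F']
    [FiniteDimensional ℝ F']
    (h : finrank ℝ F = finrank ℝ F') (g : F) (g' : F') (hg : ‖g‖ = ‖g'‖) :
    ∃ T : F ≃ₗᵢ[ℝ] F', T g = g' := by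
  let T : F ≃ₗᵢ[ℝ] F' := (stdOrthonormalBasis ℝ F).equiv (stdOrthonormalBasis ℝ F') (finCongr h)
  have h1 : ‖T g‖ = ‖g'‖ := by rw [T.norm_map, hg]
  exact ⟨T.trans (Submodule.reflection (ℝ ∙ (T g - g'))ᗮ), Submodule.reflection_sub h1⟩

/-! ### The normalization constant only depends on the dimension -/

theorem kap_eq {F F' : Type*} [NormedAddCommGroup F] [InnerProductSpace ℝ F]
    [FiniteDimensional ℝ F] [MeasurableSpace F] [BorelSpace F]
    [NormedAddCommGroup F'] [InnerProductSpace ℝ F']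
    [FiniteDimensional ℝ F'] [MeasurableSpace F'] [BorelSpace F']
    (h : finrank ℝ F = finrank ℝ F') : kap F = kap F' := by
  obtain ⟨T, -⟩ := exists_isometry h 0 0 (by simp)
  have h1 : volume.real (Metric.ball (0 : F) 1) = volume.real (Metric.ball (0 : F') 1) := by
    have h2 := T.measurePreserving.measure_preimage
      (measurableSet_ball (x := (0 : F')) (ε := 1)).nullMeasurableSet
    rw [Measure.real, Measure.real, ← h2, LinearIsometryEquiv.preimage_ball, map_zero]
  rw [kap, kap, h1, h]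

/-! ### The moments of a linear function on a ball -/

/-- The basic moment. -/
noncomputable def mom (m l : ℕ) : ℝ :=
  ∫ w in Metric.closedBall (0 : EuclideanSpace ℝ (Fin (m + 1))) 1, (w 0) ^ l

theorem setIntegral_isometry {F F' : Type*} [NormedAddCommGroup F] [InnerProductSpace ℝ F]
    [FiniteDimensional ℝ F] [MeasurableSpace F] [BorelSpace F]
    [NormedAddCommGroup F'] [InnerProductSpace ℝ F']
    [FiniteDimensional ℝ F'] [MeasurableSpace F'] [BorelSpace F']
    (T : F ≃ₗᵢ[ℝ] F') (R : ℝ) (f : F' → ℝ) :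
    ∫ w in Metric.closedBall (0 : F) R, f (T w) = ∫ w in Metric.closedBall (0 : F') R, f w := by
  have h := T.measurePreserving.setIntegral_preimage_emb
    (T.toHomeomorph.measurableEmbedding) f (Metric.closedBall (0 : F') R)
  rw [← h, LinearIsometryEquiv.preimage_closedBall, map_zero]

theorem mom_odd (m l : ℕ) (hl : Odd l) : mom m l = 0 := by
  have h := setIntegral_isometry (F := EuclideanSpace ℝ (Fin (m + 1)))
    (LinearIsometryEquiv.neg ℝ) 1 (fun w => (w 0) ^ l)
  have h1 : mom m l = - mom m l := by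
    conv_lhs => rw [mom, ← h]
    rw [mom, ← integral_neg]
    refine setIntegral_congr_fun measurableSet_closedBall fun w _ => ?_
    simp [hl.neg_pow]
  linarith

theorem integral_ball_inner_pow {G : Type*} [NormedAddCommGroup G] [InnerProductSpace ℝ G]
    [FiniteDimensional ℝ G] [MeasurableSpace G] [BorelSpace G] (m : ℕ)
    (hm : finrank ℝ G = m + 1) (g : G) (l : ℕ) (R : ℝ) (hR : 0 ≤ R) :
    ∫ w in Metric.closedBall (0 : G) R, ⟪w, g⟫ ^ l = R ^ (m + 1 + l) * ‖g‖ ^ l * mom m l := by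
  obtain ⟨T, hT⟩ := exists_isometry (F := G) (F' := EuclideanSpace ℝ (Fin (m + 1)))
    (by rw [hm]; simp) g (EuclideanSpace.single 0 ‖g‖) (by simp)
  have h1 : ∫ w in Metric.closedBall (0 : G) R, ⟪w, g⟫ ^ l =
      ∫ w in Metric.closedBall (0 : EuclideanSpace ℝ (Fin (m + 1))) R, (‖g‖ * w 0) ^ l := by
    rw [← setIntegral_isometry T]
    refine setIntegral_congr_fun measurableSet_closedBall fun w _ => ?_
    show ⟪w, g⟫ ^ l = (‖g‖ * (T w) 0) ^ l
    rw [← T.inner_map_map w g, hT, EuclideanSpace.inner_single_right]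
    simp
  rw [h1]
  have h2 : ∫ w in Metric.closedBall (0 : EuclideanSpace ℝ (Fin (m + 1))) R, (‖g‖ * w 0) ^ l =
      ‖g‖ ^ l * ∫ w in Metric.closedBall (0 : EuclideanSpace ℝ (Fin (m + 1))) R, (w 0) ^ l := by
    rw [← integral_const_mul]
    refine setIntegral_congr_fun measurableSet_closedBall fun w _ => ?_
    simp only [mul_pow]
  rw [h2]
  have h3 : ∫ w in Metric.closedBall (0 : EuclideanSpace ℝ (Fin (m + 1))) R, (w 0) ^ l =
      R ^ (m + 1 + l) * mom m l := by
    rcases hR.eq_or_lt with rfl | hR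
    · rw [Metric.closedBall_zero, Measure.restrict_singleton]
      simp
    · have h4 := Measure.setIntegral_comp_smul (volume : Measure (EuclideanSpace ℝ (Fin (m + 1))))
        (fun w => (w 0) ^ l) (R := R) (Metric.closedBall 0 1) hR.ne'
      rw [_root_.smul_closedBall' hR.ne', smul_zero, mul_one, Real.norm_eq_abs, abs_of_pos hR] at h4
      have h5 : ∫ w in Metric.closedBall (0 : EuclideanSpace ℝ (Fin (m + 1))) 1,
          ((R • w) 0) ^ l = R ^ l * mom m l := by
        rw [mom, ← integral_const_mul]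
        refine setIntegral_congr_fun measurableSet_closedBall fun w _ => ?_
        simp [mul_pow]
      rw [h5] at h4
      have h6 : finrank ℝ (EuclideanSpace ℝ (Fin (m + 1))) = m + 1 := by simp
      rw [h6, abs_of_pos (by positivity), smul_eq_mul] at h4
      have h7 : ∫ w in Metric.closedBall (0 : EuclideanSpace ℝ (Fin (m + 1))) R, (w 0) ^ l =
          R ^ (m + 1) * (R ^ l * mom m l) := by
        rw [h4, ← mul_assoc, mul_inv_cancel₀ (by positivity), one_mul]
      rw [h7, pow_add]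
      ring
  rw [h3]
  ring

/-! ### Integration over a ball by slices orthogonal to a unit vector -/

theorem setIntegral_ball_slices {P : Type*} [NormedAddCommGroup P] [InnerProductSpace ℝ P]
    [FiniteDimensional ℝ P] [MeasurableSpace P] [BorelSpace P] (N : P) (hN : ‖N‖ = 1)
    (ε : ℝ) (hε : 0 < ε) (f : P → ℝ) (hf : Continuous f) :
    ∫ p in Metric.closedBall (0 : P) ε, f p =
      ∫ σ in (-ε)..ε, ∫ w in Metric.closedBall (0 : (ℝ ∙ N)ᗮ) √(ε ^ 2 - σ ^ 2),
        f (splitE N hN (σ, w)) := by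
  have hint : Integrable ((Metric.closedBall (0 : P) ε).indicator f) volume := by
    rw [integrable_indicator_iff measurableSet_closedBall]
    exact hf.continuousOn.integrableOn_compact (isCompact_closedBall 0 ε)
  have hmp := measurePreserving_splitE N hN
  have h1 : ∫ p in Metric.closedBall (0 : P) ε, f p =
      ∫ q : ℝ × (ℝ ∙ N)ᗮ, (Metric.closedBall (0 : P) ε).indicator f (splitE N hN q) := by
    rw [← integral_indicator measurableSet_closedBall]
    exact (hmp.integral_comp (splitE N hN).measurableEmbedding _).symm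
  have hint2 : Integrable (fun q : ℝ × (ℝ ∙ N)ᗮ =>
      (Metric.closedBall (0 : P) ε).indicator f (splitE N hN q)) volume :=
    (hmp.integrable_comp_emb (splitE N hN).measurableEmbedding).2 hint
  rw [h1]
  rw [show (volume : Measure (ℝ × (ℝ ∙ N)ᗮ)) = volume.prod volume from rfl] at hint2 ⊢
  rw [integral_prod _ hint2]
  rw [intervalIntegral.integral_of_le (by linarith), ← integral_Icc_eq_integral_Ioc,
    ← integral_indicator measurableSet_Icc]
  congr 1
  funext σ
  by_cases hσ : σ ∈ Set.Icc (-ε) ε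
  · rw [Set.indicator_of_mem hσ, ← integral_indicator measurableSet_closedBall]
    congr 1
    funext w
    have h2 : splitE N hN (σ, w) ∈ Metric.closedBall (0 : P) ε ↔
        w ∈ Metric.closedBall (0 : (ℝ ∙ N)ᗮ) √(ε ^ 2 - σ ^ 2) := by
      rw [mem_closedBall_zero_iff, mem_closedBall_zero_iff]
      have h3 := norm_sq_splitE N hN (σ, w)
      simp only at h3
      have h4 : σ ^ 2 ≤ ε ^ 2 := by
        rw [sq_le_sq, abs_of_pos hε]
        exact abs_le.2 hσ
      rw [Real.le_sqrt (norm_nonneg _) (by linarith)]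
      constructor
      · intro h
        have := pow_le_pow_left₀ (norm_nonneg _) h 2
        linarith
      · intro h
        refine le_of_sq_le_sq ?_ hε.le
        linarith
    by_cases hw : w ∈ Metric.closedBall (0 : (ℝ ∙ N)ᗮ) √(ε ^ 2 - σ ^ 2)
    · rw [Set.indicator_of_mem hw, Set.indicator_of_mem (h2.2 hw)]
    · rw [Set.indicator_of_notMem hw, Set.indicator_of_notMem (fun h => hw (h2.1 h))]
  · rw [Set.indicator_of_notMem hσ]
    have : ∀ w, (Metric.closedBall (0 : P) ε).indicator f (splitE N hN (σ, w)) = 0 := by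
      intro w
      refine Set.indicator_of_notMem ?_ _
      rw [mem_closedBall_zero_iff]
      intro h
      apply hσ
      have h3 := norm_sq_splitE N hN (σ, w)
      simp only at h3
      have h4 := pow_le_pow_left₀ (norm_nonneg _) h 2
      have h5 : σ ^ 2 ≤ ε ^ 2 := by nlinarith [sq_nonneg ‖w‖]
      rw [sq_le_sq, abs_of_pos hε] at h5
      exact abs_le.1 h5
    simp only [this, integral_zero]

theorem ball_integral {P : Type*} [NormedAddCommGroup P] [InnerProductSpace ℝ P]
    [FiniteDimensional ℝ P] [MeasurableSpace P] [BorelSpace P] (m : ℕ)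
    (hm : finrank ℝ P = m + 2) (N : P) (hN : ‖N‖ = 1) (e : P) (he : ‖e‖ = 1)
    (ε : ℝ) (hε : 0 < ε) (α β : ℕ) (c : ℝ) :
    ∫ p in Metric.closedBall (0 : P) ε, (1 + ⟪p, e⟫) ^ α * (max (c + ⟪p, N⟫) 0) ^ β =
      ∫ σ in (-ε)..ε, (max (c + σ) 0) ^ β * ∑ l ∈ Finset.range (α + 1),
        (1 + σ * ⟪N, e⟫) ^ (α - l) * (√(ε ^ 2 - σ ^ 2) ^ (m + 1 + l) *
          √(1 - ⟪N, e⟫ ^ 2) ^ l * mom m l) * (α.choose l) := by
  rw [setIntegral_ball_slices N hN ε hε _ (by fun_prop)]
  refine intervalIntegral.integral_congr fun σ _ => ?_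
  show ∫ w in Metric.closedBall (0 : (ℝ ∙ N)ᗮ) √(ε ^ 2 - σ ^ 2),
    (1 + ⟪splitE N hN (σ, w), e⟫) ^ α * (max (c + ⟪splitE N hN (σ, w), N⟫) 0) ^ β = _
  -- the projection of `e`
  let g : (ℝ ∙ N)ᗮ := ⟨e - ⟪N, e⟫ • N, by
    rw [Submodule.mem_orthogonal_singleton_iff_inner_left, inner_sub_left, inner_smul_left,
      real_inner_self_eq_norm_sq, hN, real_inner_comm]
    simp⟩
  have hg : ∀ w : (ℝ ∙ N)ᗮ, ⟪(w : P), e⟫ = ⟪w, g⟫ := by
    intro w
    rw [Submodule.coe_inner]
    show ⟪(w : P), e⟫ = ⟪(w : P), e - ⟪N, e⟫ • N⟫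
    rw [inner_sub_right, inner_smul_right, inner_e_perp]
    ring
  have hgn : ‖g‖ = √(1 - ⟪N, e⟫ ^ 2) := by
    rw [← Real.sqrt_sq (norm_nonneg g)]
    congr 1
    rw [Submodule.coe_norm]
    show ‖e - ⟪N, e⟫ • N‖ ^ 2 = _
    rw [norm_sub_sq_real, he, inner_smul_right, norm_smul, hN, real_inner_comm N e,
      Real.norm_eq_abs, mul_one, sq_abs]
    ring
  have h1 : ∀ w : (ℝ ∙ N)ᗮ, (1 + ⟪splitE N hN (σ, w), e⟫) ^ α *
      (max (c + ⟪splitE N hN (σ, w), N⟫) 0) ^ β =
      (max (c + σ) 0) ^ β * ∑ l ∈ Finset.range (α + 1),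
        (1 + σ * ⟪N, e⟫) ^ (α - l) * ⟪w, g⟫ ^ l * (α.choose l) := by
    intro w
    rw [inner_splitE_self, inner_splitE, hg w]
    show (1 + (σ * ⟪N, e⟫ + ⟪w, g⟫)) ^ α * (max (c + σ) 0) ^ β = _
    rw [show 1 + (σ * ⟪N, e⟫ + ⟪w, g⟫) = ⟪w, g⟫ + (1 + σ * ⟪N, e⟫) by ring, add_pow, mul_comm]
    congr 1
    refine Finset.sum_congr rfl fun l _ => ?_
    ring
  simp only [h1]
  rw [integral_const_mul]
  congr 1
  rw [integral_finsetSum]
  · refine Finset.sum_congr rfl fun l _ => ?_
    rw [integral_mul_const, integral_const_mul,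
      integral_ball_inner_pow m (finrank_perp N hN hm) g l _ (Real.sqrt_nonneg _), hgn]
  · intro l _
    have hc : Continuous fun w : (ℝ ∙ N)ᗮ =>
        (1 + σ * ⟪N, e⟫) ^ (α - l) * ⟪w, g⟫ ^ l * (α.choose l) := by fun_prop
    exact hc.continuousOn.integrableOn_compact (isCompact_closedBall 0 _)

end Pool.Agent.Lib.MP_b669e1_gt
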