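import Pool.Agent.Lib.MP_b669e1_gt.OneDim

set_option autoImplicit false

open MeasureTheory Module

open scoped RealInnerProductSpace ENNReal

namespace Pool.Agent.Lib.MP_b669e1_gt

section Split

variable {X : Type*} [NormedAddCommGroup X] [InnerProductSpace ℝ X] [FiniteDimensional ℝ X]
  [MeasurableSpace X] [BorelSpace X]

/-- the measurable equivalence `(s, w) ↦ s e + w`. -/
noncomputable def splitE (e : X) (he : ‖e‖ = 1) : (ℝ × (ℝ ∙ e)ᗮ) ≃ᵐ X :=
  (MeasurableEquiv.prodCongr (LinearIsometryEquiv.toSpanUnitSingleton e he).toMeasurableEquiv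
    (MeasurableEquiv.refl _)).trans
  ((MeasurableEquiv.toLp 2 _).trans
    ((ℝ ∙ e).orthogonalDecomposition.symm.toMeasurableEquiv))

theorem splitE_apply (e : X) (he : ‖e‖ = 1) (p : ℝ × (ℝ ∙ e)ᗮ) :
    splitE e he p = p.1 • e + (p.2 : X) := by
  simp [splitE, MeasurableEquiv.prodCongr]

theorem measurePreserving_splitE (e : X) (he : ‖e‖ = 1) :
    MeasurePreserving (splitE e he) volume volume := by
  refine MeasurePreserving.trans ?_ (MeasurePreserving.trans
    (WithLp.volume_preserving_toLp _ _) (LinearIsometryEquiv.measurePreserving _))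
  exact MeasurePreserving.prod (LinearIsometryEquiv.measurePreserving _) (MeasurePreserving.id _)

omit [FiniteDimensional ℝ X] [MeasurableSpace X] [BorelSpace X] in
theorem inner_e_perp (e : X) (w : (ℝ ∙ e)ᗮ) : ⟪(w : X), e⟫ = 0 :=
  Submodule.mem_orthogonal_singleton_iff_inner_left.1 w.2

theorem norm_sq_splitE (e : X) (he : ‖e‖ = 1) (p : ℝ × (ℝ ∙ e)ᗮ) :
    ‖splitE e he p‖ ^ 2 = p.1 ^ 2 + ‖p.2‖ ^ 2 := by
  rw [splitE_apply, norm_add_sq_real, inner_smul_left, real_inner_comm, inner_e_perp,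
    norm_smul, he]
  simp

theorem inner_splitE (e : X) (he : ‖e‖ = 1) (p : ℝ × (ℝ ∙ e)ᗮ) (v : X) :
    ⟪splitE e he p, v⟫ = p.1 * ⟪e, v⟫ + ⟪(p.2 : X), v⟫ := by
  rw [splitE_apply, inner_add_left, inner_smul_left]
  simp

theorem inner_splitE_self (e : X) (he : ‖e‖ = 1) (p : ℝ × (ℝ ∙ e)ᗮ) :
    ⟪splitE e he p, e⟫ = p.1 := by
  rw [inner_splitE, inner_e_perp, real_inner_self_eq_norm_sq, he]
  simp

omit [FiniteDimensional ℝ X] [MeasurableSpace X] [BorelSpace X] in
theorem finrank_perp (e : X) (he : ‖e‖ = 1) {n : ℕ} (hn : finrank ℝ X = n + 1) :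
    finrank ℝ (ℝ ∙ e)ᗮ = n := by
  have : Fact (finrank ℝ X = n + 1) := ⟨hn⟩
  exact Submodule.finrank_orthogonal_span_singleton (by rintro rfl; simp at he)

end Split

section Radial

/-- The density of the radius on the affine hyperplane at height `s`. -/
noncomputable def dens (j : ℕ) (s r : ℝ) : ℝ := if |s| < r then r * (r ^ 2 - s ^ 2) ^ j else 0

theorem dens_nonneg (j : ℕ) (s r : ℝ) : 0 ≤ dens j s r := by
  unfold dens
  split_ifs with h
  · have h1 : 0 ≤ r := (abs_nonneg s).trans h.le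
    have h2 : s ^ 2 ≤ r ^ 2 := by
      rw [← sq_abs s]
      exact pow_le_pow_left₀ (abs_nonneg s) h.le 2
    exact mul_nonneg h1 (pow_nonneg (by linarith) _)
  · exact le_rfl

theorem measurable_dens (j : ℕ) : Measurable fun p : ℝ × ℝ => dens j p.1 p.2 := by
  unfold dens
  refine Measurable.ite (measurableSet_lt ?_ measurable_snd) ?_ measurable_const
  · fun_prop
  · fun_prop

variable {F : Type*} [NormedAddCommGroup F] [InnerProductSpace ℝ F] [FiniteDimensional ℝ F]
  [MeasurableSpace F] [BorelSpace F]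

/-- The normalization constant: dimension times the volume of the unit ball. -/
noncomputable def kap (F : Type*) [NormedAddCommGroup F] [InnerProductSpace ℝ F]
    [MeasureSpace F] : ℝ :=
  (finrank ℝ F : ℝ) * volume.real (Metric.ball (0 : F) 1)

theorem image_sqrt (s : ℝ) :
    (fun q : ℝ => √(s ^ 2 + q ^ 2)) '' Set.Ioi 0 = Set.Ioi |s| := by
  ext r
  constructor
  · rintro ⟨q, hq, rfl⟩
    have hq' : 0 < q := hq
    show |s| < √(s ^ 2 + q ^ 2)
    rw [← Real.sqrt_sq_eq_abs]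
    exact Real.sqrt_lt_sqrt (sq_nonneg s) (by nlinarith)
  · intro hr
    have hr' : |s| < r := hr
    have h1 : 0 < r := (abs_nonneg s).trans_lt hr'
    have h2 : s ^ 2 < r ^ 2 := by
      rw [← sq_abs s]
      exact pow_lt_pow_left₀ hr' (abs_nonneg s) (by norm_num)
    refine ⟨√(r ^ 2 - s ^ 2), Real.sqrt_pos.2 (by linarith), ?_⟩
    show √(s ^ 2 + √(r ^ 2 - s ^ 2) ^ 2) = r
    rw [Real.sq_sqrt (by linarith)]
    rw [show s ^ 2 + (r ^ 2 - s ^ 2) = r ^ 2 by ring]
    exact Real.sqrt_sq h1.le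

theorem radial_change (s : ℝ) (j : ℕ) (A : Set ℝ) :
    ∫ q in Set.Ioi (0 : ℝ), q ^ (2 * j + 1) • (A.indicator (fun _ => (1 : ℝ)) √(s ^ 2 + q ^ 2)) =
      ∫ r, A.indicator (fun _ => (1 : ℝ)) r * dens j s r := by
  have h1 := integral_image_eq_integral_abs_deriv_smul (s := Set.Ioi (0 : ℝ))
    (f := fun q : ℝ => √(s ^ 2 + q ^ 2)) (f' := fun q => q / √(s ^ 2 + q ^ 2)) measurableSet_Ioi
    (fun q hq => by
      have hq' : 0 < q := hq
      have hpos : 0 < s ^ 2 + q ^ 2 := by positivity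
      have h2 : HasDerivAt (fun q : ℝ => s ^ 2 + q ^ 2) (2 * q) q := by
        have := (hasDerivAt_pow 2 q).const_add (s ^ 2)
        simpa using this
      have h3 := h2.sqrt hpos.ne'
      have h4 : 2 * q / (2 * √(s ^ 2 + q ^ 2)) = q / √(s ^ 2 + q ^ 2) := by
        rw [mul_div_mul_left _ _ (by norm_num)]
      rw [h4] at h3
      exact h3.hasDerivWithinAt)
    (by
      intro q hq q' hq' h
      have hq1 : 0 < q := hq
      have hq2 : 0 < q' := hq'
      have h2 : √(s ^ 2 + q ^ 2) = √(s ^ 2 + q' ^ 2) := h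
      rw [Real.sqrt_inj (by positivity) (by positivity)] at h2
      have h3 : q ^ 2 = q' ^ 2 := by linarith
      exact (pow_left_inj₀ hq1.le hq2.le (by norm_num)).1 h3)
    (fun r => A.indicator (fun _ => (1 : ℝ)) r * (r * (r ^ 2 - s ^ 2) ^ j))
  rw [image_sqrt] at h1
  have h2 : ∫ r, A.indicator (fun _ => (1 : ℝ)) r * dens j s r =
      ∫ r in Set.Ioi |s|, A.indicator (fun _ => (1 : ℝ)) r * (r * (r ^ 2 - s ^ 2) ^ j) := by
    rw [← integral_indicator measurableSet_Ioi]
    congr 1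
    funext r
    unfold dens
    by_cases h : |s| < r
    · rw [if_pos h, Set.indicator_of_mem (show r ∈ Set.Ioi |s| from h)]
    · rw [if_neg h, Set.indicator_of_notMem (show r ∉ Set.Ioi |s| from h), mul_zero]
  rw [h2, h1]
  refine setIntegral_congr_fun measurableSet_Ioi fun q hq => ?_
  have hq' : 0 < q := hq
  have hpos : 0 < s ^ 2 + q ^ 2 := by positivity
  have hsq : 0 < √(s ^ 2 + q ^ 2) := Real.sqrt_pos.2 hpos
  simp only [smul_eq_mul]
  rw [abs_of_pos (div_pos hq' hsq), Real.sq_sqrt hpos.le]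
  have : s ^ 2 + q ^ 2 - s ^ 2 = q ^ 2 := by ring
  rw [this, ← pow_mul, pow_succ]
  field_simp

theorem integrableOn_dens (j : ℕ) (s : ℝ) (A : Set ℝ) (M : ℝ) (hM : ∀ r ∈ A, r ≤ M) :
    IntegrableOn (fun r => dens j s r) A := by
  have h1 : (fun r => dens j s r) =
      (Set.Ioi |s|).indicator (fun r => r * (r ^ 2 - s ^ 2) ^ j) := by
    funext r
    unfold dens
    by_cases h : |s| < r
    · rw [if_pos h, Set.indicator_of_mem (show r ∈ Set.Ioi |s| from h)]
    · rw [if_neg h, Set.indicator_of_notMem (show r ∉ Set.Ioi |s| from h)]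
  have h2 : IntegrableOn (fun r => dens j s r) (Set.Iic M) := by
    rw [h1, IntegrableOn, integrable_indicator_iff measurableSet_Ioi, IntegrableOn,
      Measure.restrict_restrict measurableSet_Ioi]
    have h3 : Set.Ioi |s| ∩ Set.Iic M ⊆ Set.Icc |s| M := fun r hr => ⟨le_of_lt hr.1, hr.2⟩
    refine IntegrableOn.mono_set ?_ h3
    exact (by fun_prop : Continuous fun r : ℝ => r * (r ^ 2 - s ^ 2) ^ j).integrableOn_Icc
  exact h2.mono_set hM

theorem volume_radial (hF : 0 < finrank ℝ F) (j : ℕ) (hd : finrank ℝ F = 2 * j + 2) (s : ℝ)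
    (A : Set ℝ) (hA : MeasurableSet A) (M : ℝ) (hM : ∀ r ∈ A, r ≤ M) :
    volume {w : F | √(s ^ 2 + ‖w‖ ^ 2) ∈ A} =
      ∫⁻ r in A, ENNReal.ofReal (kap F * dens j s r) := by
  have hnt : Nontrivial F := Module.nontrivial_of_finrank_pos hF
  have hmeas : MeasurableSet {w : F | √(s ^ 2 + ‖w‖ ^ 2) ∈ A} := by
    have : Measurable fun w : F => √(s ^ 2 + ‖w‖ ^ 2) := by fun_prop
    exact this hA
  have hsub : {w : F | √(s ^ 2 + ‖w‖ ^ 2) ∈ A} ⊆ Metric.closedBall 0 M := by
    intro w hw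
    rw [mem_closedBall_zero_iff]
    refine le_trans ?_ (hM _ hw)
    exact Real.le_sqrt_of_sq_le (by nlinarith [sq_nonneg s])
  have hfin : volume {w : F | √(s ^ 2 + ‖w‖ ^ 2) ∈ A} ≠ ⊤ :=
    ((measure_mono hsub).trans_lt measure_closedBall_lt_top).ne
  have h1 := integral_fun_norm_addHaar (volume : Measure F)
    (fun q => A.indicator (fun _ => (1 : ℝ)) √(s ^ 2 + q ^ 2))
  have h2 : ∫ w : F, A.indicator (fun _ => (1 : ℝ)) √(s ^ 2 + ‖w‖ ^ 2) =
      volume.real {w : F | √(s ^ 2 + ‖w‖ ^ 2) ∈ A} := by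
    rw [← integral_indicator_one hmeas]
    congr 1
  have hd1 : finrank ℝ F - 1 = 2 * j + 1 := by omega
  rw [h2, hd1, radial_change] at h1
  have h3 : volume {w : F | √(s ^ 2 + ‖w‖ ^ 2) ∈ A} =
      ENNReal.ofReal (volume.real {w : F | √(s ^ 2 + ‖w‖ ^ 2) ∈ A}) := by
    rw [Measure.real, ENNReal.ofReal_toReal hfin]
  rw [h3, h1]
  have hkap : 0 ≤ kap F := by unfold kap; positivity
  have h4 : (finrank ℝ F) • volume.real (Metric.ball (0 : F) 1) •
      ∫ r, A.indicator (fun _ => (1 : ℝ)) r * dens j s r =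
      ∫ r in A, kap F * dens j s r := by
    rw [integral_const_mul, kap, nsmul_eq_mul, smul_eq_mul, mul_assoc]
    congr 2
    rw [← integral_indicator hA]
    congr 1
    funext r
    by_cases hr : r ∈ A
    · simp [hr]
    · simp [hr]
  rw [h4]
  rw [ofReal_integral_eq_lintegral_ofReal]
  · exact (integrableOn_dens j s A M hM).const_mul _
  · exact Filter.Eventually.of_forall fun r => mul_nonneg hkap (dens_nonneg j s r)

end Radial

end Pool.Agent.Lib.MP_b669e1_gt
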