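import Pool.Agent.Lib.MP_b669e1_gt.Formula

set_option autoImplicit false

open MeasureTheory Module

open scoped RealInnerProductSpace ENNReal Pointwise

namespace Pool.Agent.Lib.MP_b669e1_gt

section X

variable {X : Type*} [NormedAddCommGroup X] [InnerProductSpace ℝ X] [FiniteDimensional ℝ X]
  [MeasurableSpace X] [BorelSpace X]

theorem integrable_dens_left (j : ℕ) (r : ℝ) : Integrable (fun s => dens j s r) := by
  have h0 : (fun s => dens j s r) =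
      (Set.Ioo (-r) r).indicator (fun s => r * (r ^ 2 - s ^ 2) ^ j) := by
    funext s
    unfold dens
    by_cases h : |s| < r
    · rw [if_pos h, Set.indicator_of_mem (show s ∈ Set.Ioo (-r) r from abs_lt.1 h)]
    · rw [if_neg h, Set.indicator_of_notMem
        (fun hs : s ∈ Set.Ioo (-r) r => h (abs_lt.2 hs))]
  rw [h0, integrable_indicator_iff measurableSet_Ioo]
  exact ((by fun_prop : Continuous fun s : ℝ => r * (r ^ 2 - s ^ 2) ^ j).integrableOn_Icc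
    (a := -r) (b := r)).mono_set Set.Ioo_subset_Icc_self

theorem volume_slice (j : ℕ) (hX : finrank ℝ X = 2 * j + 3) (ξ : X) (a : ℝ) (ha : 0 < a)
    (hξ : ‖ξ‖ = a) (A : Set ℝ) (hA : MeasurableSet A) (hA0 : ∀ r ∈ A, 0 < r)
    (M : ℝ) (hM : ∀ r ∈ A, r ≤ M) (τ : ℝ) :
    volume {x : X | ‖x‖ ∈ A ∧ ⟪x, ξ⟫ ≤ τ} =
      ∫⁻ r in A, ENNReal.ofReal (kap (EuclideanSpace ℝ (Fin (2 * j + 2))) * Dval j r (τ / a)) := by
  set κ := kap (EuclideanSpace ℝ (Fin (2 * j + 2))) with hκdef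
  have hκ : 0 ≤ κ := by rw [hκdef]; unfold kap; positivity
  set e : X := a⁻¹ • ξ with he_def
  have he : ‖e‖ = 1 := by
    rw [he_def, norm_smul, hξ, Real.norm_eq_abs, abs_of_pos (inv_pos.2 ha), inv_mul_cancel₀ ha.ne']
  have hξe : ξ = a • e := by rw [he_def, smul_smul, mul_inv_cancel₀ ha.ne', one_smul]
  have hfin : finrank ℝ (ℝ ∙ e)ᗮ = 2 * j + 2 := finrank_perp e he hX
  have hk : kap (ℝ ∙ e)ᗮ = κ := kap_eq (by rw [hfin]; simp)
  have hmeas : MeasurableSet {x : X | ‖x‖ ∈ A ∧ ⟪x, ξ⟫ ≤ τ} := by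
    have hm1 : Measurable fun x : X => ⟪x, ξ⟫ := by fun_prop
    exact MeasurableSet.inter (measurable_norm hA) (measurableSet_le hm1 measurable_const)
  have h1 := (measurePreserving_splitE e he).measure_preimage hmeas.nullMeasurableSet
  rw [← h1]
  have hmeas2 : MeasurableSet (splitE e he ⁻¹' {x : X | ‖x‖ ∈ A ∧ ⟪x, ξ⟫ ≤ τ}) :=
    (splitE e he).measurable hmeas
  rw [show (volume : Measure (ℝ × (ℝ ∙ e)ᗮ)) = volume.prod volume from rfl,
    Measure.prod_apply hmeas2]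
  have h2 : ∀ s : ℝ, volume (Prod.mk s ⁻¹' (splitE e he ⁻¹' {x : X | ‖x‖ ∈ A ∧ ⟪x, ξ⟫ ≤ τ})) =
      (Set.Iic (τ / a)).indicator (fun s => ∫⁻ r in A, ENNReal.ofReal (κ * dens j s r)) s := by
    intro s
    have h3 : Prod.mk s ⁻¹' (splitE e he ⁻¹' {x : X | ‖x‖ ∈ A ∧ ⟪x, ξ⟫ ≤ τ}) =
        {w : (ℝ ∙ e)ᗮ | √(s ^ 2 + ‖w‖ ^ 2) ∈ A ∧ a * s ≤ τ} := by
      ext w
      show (‖splitE e he (s, w)‖ ∈ A ∧ ⟪splitE e he (s, w), ξ⟫ ≤ τ) ↔
        (√(s ^ 2 + ‖w‖ ^ 2) ∈ A ∧ a * s ≤ τ)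
      have h4 : ‖splitE e he (s, w)‖ = √(s ^ 2 + ‖w‖ ^ 2) := by
        rw [← norm_sq_splitE e he (s, w), Real.sqrt_sq (norm_nonneg _)]
      have h5 : ⟪splitE e he (s, w), ξ⟫ = a * s := by
        rw [hξe, inner_smul_right, inner_splitE_self]
      rw [h4, h5]
    rw [h3]
    by_cases hs : s ≤ τ / a
    · have hs' : a * s ≤ τ := by
        rw [le_div_iff₀ ha] at hs
        linarith
      rw [Set.indicator_of_mem (show s ∈ Set.Iic (τ / a) from hs)]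
      simp only [hs', and_true]
      rw [volume_radial (by rw [hfin]; omega) j hfin s A hA M hM, hk]
    · have hs' : ¬ a * s ≤ τ := by
        intro h
        apply hs
        rw [le_div_iff₀ ha]
        linarith
      rw [Set.indicator_of_notMem (show s ∉ Set.Iic (τ / a) from hs)]
      simp [hs']
  simp only [h2]
  rw [lintegral_indicator measurableSet_Iic, lintegral_lintegral_swap]
  · refine setLIntegral_congr_fun hA fun r hr => ?_
    show ∫⁻ s in Set.Iic (τ / a), ENNReal.ofReal (κ * dens j s r) = _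
    rw [← Dval_eq j r (τ / a) (hA0 r hr), ← integral_const_mul,
      ofReal_integral_eq_lintegral_ofReal]
    · exact ((integrable_dens_left j r).const_mul κ).integrableOn
    · exact Filter.Eventually.of_forall fun s => mul_nonneg hκ (dens_nonneg j s r)
  · exact (((measurable_dens j).const_mul κ).ennreal_ofReal).aemeasurable

end X

section XY

variable {X : Type*} [NormedAddCommGroup X] [InnerProductSpace ℝ X] [FiniteDimensional ℝ X]
  [MeasurableSpace X] [BorelSpace X]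
variable {Y : Type*} [NormedAddCommGroup Y] [InnerProductSpace ℝ Y] [FiniteDimensional ℝ Y]
  [MeasurableSpace Y] [BorelSpace Y]

theorem Dval_nonneg (j : ℕ) (r u : ℝ) (hr : 0 < r) : 0 ≤ Dval j r u := by
  rw [← Dval_eq j r u hr]
  exact setIntegral_nonneg measurableSet_Iic fun s _ => dens_nonneg j s r

theorem continuous_Dval (j : ℕ) : Continuous fun p : ℝ × ℝ => Dval j p.1 p.2 := by
  unfold Dval
  have h1 : Continuous fun p : ℝ × ℝ => ZZ j p.1 (max (p.2 + p.1) 0) :=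
    (continuous_ZZ j).comp (by fun_prop : Continuous fun p : ℝ × ℝ => (p.1, max (p.2 + p.1) 0))
  have h2 : Continuous fun p : ℝ × ℝ => ZZ j (-p.1) (max (p.2 - p.1) 0) :=
    (continuous_ZZ j).comp (by fun_prop : Continuous fun p : ℝ × ℝ => (-p.1, max (p.2 - p.1) 0))
  fun_prop

/-- The tube, in the product space. -/
def tubeXY (X Y : Type*) [Norm X] [Norm Y] (ε : ℝ) : Set (X × Y) :=
  {z | (‖z.1‖ - 1) ^ 2 + ‖z.2‖ ^ 2 ≤ ε ^ 2}

theorem volume_tube_lintegral (j : ℕ) (hX : finrank ℝ X = 2 * j + 3) (ξ : X) (η : Y) (a : ℝ)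
    (ha : 0 < a) (hξ : ‖ξ‖ = a) (ε : ℝ) (hε : 0 < ε) (hε1 : ε < 1) (t : ℝ) :
    volume {z : X × Y | z ∈ tubeXY X Y ε ∧ ⟪z.1, ξ⟫ + ⟪z.2, η⟫ ≤ t} =
      ∫⁻ p in Metric.closedBall (0 : WithLp 2 (ℝ × Y)) ε,
        ENNReal.ofReal (kap (EuclideanSpace ℝ (Fin (2 * j + 2))) *
          Dval j (1 + p.fst) ((t - ⟪p.snd, η⟫) / a)) := by
  set κ := kap (EuclideanSpace ℝ (Fin (2 * j + 2))) with hκdef
  have hmeas : MeasurableSet {z : X × Y | z ∈ tubeXY X Y ε ∧ ⟪z.1, ξ⟫ + ⟪z.2, η⟫ ≤ t} := by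
    have hm1 : Measurable fun z : X × Y => (‖z.1‖ - 1) ^ 2 + ‖z.2‖ ^ 2 := by fun_prop
    have hm2 : Measurable fun z : X × Y => ⟪z.1, ξ⟫ + ⟪z.2, η⟫ := by fun_prop
    exact MeasurableSet.inter (measurableSet_le hm1 measurable_const)
      (measurableSet_le hm2 measurable_const)
  rw [show (volume : Measure (X × Y)) = volume.prod volume from rfl,
    Measure.prod_apply_symm hmeas]
  have h1 : ∀ y : Y, volume ((fun x => (x, y)) ⁻¹'
      {z : X × Y | z ∈ tubeXY X Y ε ∧ ⟪z.1, ξ⟫ + ⟪z.2, η⟫ ≤ t}) =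
      ∫⁻ ρ, {q : ℝ × Y | q.1 ^ 2 + ‖q.2‖ ^ 2 ≤ ε ^ 2}.indicator (fun q : ℝ × Y =>
        ENNReal.ofReal (κ * Dval j (1 + q.1) ((t - ⟪q.2, η⟫) / a))) (ρ, y) := by
    intro y
    let A : Set ℝ := {r | (r - 1) ^ 2 + ‖y‖ ^ 2 ≤ ε ^ 2}
    have hA : MeasurableSet A := by
      have : Measurable fun r : ℝ => (r - 1) ^ 2 + ‖y‖ ^ 2 := by fun_prop
      exact measurableSet_le this measurable_const
    have hAb : ∀ r ∈ A, 0 < r ∧ r ≤ 2 := by
      intro r hr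
      have h2 : (r - 1) ^ 2 + ‖y‖ ^ 2 ≤ ε ^ 2 := hr
      have h3 : (r - 1) ^ 2 ≤ ε ^ 2 := by nlinarith [sq_nonneg ‖y‖]
      rw [sq_le_sq, abs_of_pos hε] at h3
      have h4 := abs_le.1 h3
      constructor <;> linarith [h4.1, h4.2]
    have h2 : (fun x => (x, y)) ⁻¹'
        {z : X × Y | z ∈ tubeXY X Y ε ∧ ⟪z.1, ξ⟫ + ⟪z.2, η⟫ ≤ t} =
        {x : X | ‖x‖ ∈ A ∧ ⟪x, ξ⟫ ≤ t - ⟪y, η⟫} := by
      ext x
      show ((‖x‖ - 1) ^ 2 + ‖y‖ ^ 2 ≤ ε ^ 2 ∧ ⟪x, ξ⟫ + ⟪y, η⟫ ≤ t) ↔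
        ((‖x‖ - 1) ^ 2 + ‖y‖ ^ 2 ≤ ε ^ 2 ∧ ⟪x, ξ⟫ ≤ t - ⟪y, η⟫)
      rw [le_sub_iff_add_le]
    rw [h2, volume_slice j hX ξ a ha hξ A hA (fun r hr => (hAb r hr).1) 2
      (fun r hr => (hAb r hr).2)]
    rw [← lintegral_indicator hA, ← lintegral_add_left_eq_self _ (1 : ℝ)]
    refine lintegral_congr fun ρ => ?_
    by_cases hρ : ρ ^ 2 + ‖y‖ ^ 2 ≤ ε ^ 2
    · rw [Set.indicator_of_mem, Set.indicator_of_mem]
      · exact hρ
      · show (1 + ρ - 1) ^ 2 + ‖y‖ ^ 2 ≤ ε ^ 2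
        rw [add_sub_cancel_left]
        exact hρ
    · rw [Set.indicator_of_notMem, Set.indicator_of_notMem]
      · exact hρ
      · intro h
        apply hρ
        have h' : (1 + ρ - 1) ^ 2 + ‖y‖ ^ 2 ≤ ε ^ 2 := h
        rwa [add_sub_cancel_left] at h'
  simp only [h1]
  have hB : MeasurableSet {q : ℝ × Y | q.1 ^ 2 + ‖q.2‖ ^ 2 ≤ ε ^ 2} := by
    have : Measurable fun q : ℝ × Y => q.1 ^ 2 + ‖q.2‖ ^ 2 := by fun_prop
    exact measurableSet_le this measurable_const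
  have hg : Measurable fun q : ℝ × Y =>
      ENNReal.ofReal (κ * Dval j (1 + q.1) ((t - ⟪q.2, η⟫) / a)) := by
    have hc : Continuous fun q : ℝ × Y => Dval j (1 + q.1) ((t - ⟪q.2, η⟫) / a) :=
      (continuous_Dval j).comp
        (by fun_prop : Continuous fun q : ℝ × Y => (1 + q.1, (t - ⟪q.2, η⟫) / a))
    exact (hc.measurable.const_mul κ).ennreal_ofReal
  rw [← lintegral_prod_symm _ (hg.indicator hB).aemeasurable]
  rw [show (volume : Measure ℝ).prod (volume : Measure Y) = volume from rfl]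
  rw [← (WithLp.volume_preserving_ofLp ℝ Y).lintegral_comp (hg.indicator hB),
    ← lintegral_indicator measurableSet_closedBall]
  refine lintegral_congr fun p => ?_
  have h3 : p.ofLp ∈ {q : ℝ × Y | q.1 ^ 2 + ‖q.2‖ ^ 2 ≤ ε ^ 2} ↔
      p ∈ Metric.closedBall (0 : WithLp 2 (ℝ × Y)) ε := by
    rw [mem_closedBall_zero_iff, ← abs_of_nonneg (norm_nonneg p), ← abs_of_pos hε, ← sq_le_sq,
      WithLp.prod_norm_sq_eq_of_L2, abs_of_pos hε, Real.norm_eq_abs, sq_abs]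
    exact Iff.rfl
  by_cases hp : p ∈ Metric.closedBall (0 : WithLp 2 (ℝ × Y)) ε
  · rw [Set.indicator_of_mem hp, Set.indicator_of_mem (h3.2 hp)]
    rfl
  · rw [Set.indicator_of_notMem hp, Set.indicator_of_notMem (fun h => hp (h3.1 h))]

omit [InnerProductSpace ℝ Y] [FiniteDimensional ℝ Y] [MeasurableSpace Y] [BorelSpace Y] in
theorem fst_pos_of_mem (ε : ℝ) (hε1 : ε < 1) (p : WithLp 2 (ℝ × Y))
    (hp : p ∈ Metric.closedBall (0 : WithLp 2 (ℝ × Y)) ε) : 0 < 1 + p.fst := by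
  rw [mem_closedBall_zero_iff] at hp
  have h1 : ‖p.fst‖ ^ 2 ≤ ‖p‖ ^ 2 := by
    rw [WithLp.prod_norm_sq_eq_of_L2]
    nlinarith [sq_nonneg ‖p.snd‖]
  have h2 : ‖p.fst‖ ≤ ‖p‖ := le_of_sq_le_sq h1 (norm_nonneg _)
  have h3 : |p.fst| ≤ ε := h2.trans hp
  have := (abs_le.1 h3).1
  linarith

theorem volume_tube_real (j : ℕ) (hX : finrank ℝ X = 2 * j + 3) (ξ : X) (η : Y) (a : ℝ)
    (ha : 0 < a) (hξ : ‖ξ‖ = a) (ε : ℝ) (hε : 0 < ε) (hε1 : ε < 1) (t : ℝ) :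
    (volume {z : X × Y | z ∈ tubeXY X Y ε ∧ ⟪z.1, ξ⟫ + ⟪z.2, η⟫ ≤ t}).toReal =
      kap (EuclideanSpace ℝ (Fin (2 * j + 2))) *
        ∫ p in Metric.closedBall (0 : WithLp 2 (ℝ × Y)) ε,
          Dval j (1 + p.fst) ((t - ⟪p.snd, η⟫) / a) := by
  have hκ : 0 ≤ kap (EuclideanSpace ℝ (Fin (2 * j + 2))) := by unfold kap; positivity
  rw [volume_tube_lintegral j hX ξ η a ha hξ ε hε hε1 t, ← integral_const_mul,
    ← ofReal_integral_eq_lintegral_ofReal, ENNReal.toReal_ofReal]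
  · refine setIntegral_nonneg measurableSet_closedBall fun p hp => ?_
    exact mul_nonneg hκ (Dval_nonneg j _ _ (fst_pos_of_mem ε hε1 p hp))
  · have hc : Continuous fun p : WithLp 2 (ℝ × Y) => Dval j (1 + p.fst) ((t - ⟪p.snd, η⟫) / a) :=
      (continuous_Dval j).comp
        (by fun_prop : Continuous fun p : WithLp 2 (ℝ × Y) => (1 + p.fst, (t - ⟪p.snd, η⟫) / a))
    exact (hc.const_mul _).continuousOn.integrableOn_compact (isCompact_closedBall 0 ε)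
  · refine (ae_restrict_iff' measurableSet_closedBall).2 (Filter.Eventually.of_forall fun p hp => ?_)
    exact mul_nonneg hκ (Dval_nonneg j _ _ (fst_pos_of_mem ε hε1 p hp))

/-- The coefficients of `ZZ`. -/
noncomputable def co (j i : ℕ) : ℝ :=
  (j.choose i : ℝ) * 2 ^ i * (-1) ^ (j - i) / ((2 * j - i : ℕ) + 1)

/-- The cutoff function of the tube, as a function of `a = ‖ξ‖` and `t`. -/
noncomputable def cutF (j m : ℕ) (ε a t : ℝ) : ℝ :=
  kap (EuclideanSpace ℝ (Fin (2 * j + 2))) * ∑ i ∈ Finset.range (j + 1),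
    co j i * a⁻¹ ^ (2 * j - i + 1) *
      (GG m ε (i + 1) (2 * j - i + 1) 1 a t - (-1) ^ i * GG m ε (i + 1) (2 * j - i + 1) (-1) a t)

theorem fp_cutF (j m : ℕ) (ε : ℝ) (hε : 0 < ε) : FP (cutF j m ε) := by
  refine (FP.const _).mul (FP.sum _ _ fun i _ => ?_)
  refine ((FP.const _).mul (FP.inv_fst.pow _)).mul (FP.sub ?_ ((FP.const _).mul ?_))
  · exact fp_GG m ε hε _ _ (by omega) 1
  · exact fp_GG m ε hε _ _ (by omega) (-1)

theorem Dval_expand (j : ℕ) (r u a : ℝ) (ha : 0 < a) :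
    Dval j r u = ∑ i ∈ Finset.range (j + 1), co j i * a⁻¹ ^ (2 * j - i + 1) *
      (r ^ (i + 1) * (max (a * (u + r)) 0) ^ (2 * j - i + 1) -
        (-1) ^ i * (r ^ (i + 1) * (max (a * (u - r)) 0) ^ (2 * j - i + 1))) := by
  have h1 : ∀ v : ℝ, max v 0 = a⁻¹ * max (a * v) 0 := by
    intro v
    rw [mul_max_of_nonneg _ _ (inv_nonneg.2 ha.le), mul_zero, ← mul_assoc, inv_mul_cancel₀ ha.ne',
      one_mul]
  rw [Dval, ZZ_eq_sum, ZZ_eq_sum, ← Finset.sum_sub_distrib, Finset.mul_sum]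
  refine Finset.sum_congr rfl fun i _ => ?_
  rw [h1 (u + r), h1 (u - r), mul_pow, mul_pow, neg_pow r i, co]
  ring

theorem volume_tube_eq_cutF (j m : ℕ) (hm : Odd m) (hX : finrank ℝ X = 2 * j + 3)
    (hY : finrank ℝ Y = m + 1) (ξ : X) (η : Y) (a : ℝ)
    (ha : 0 < a) (hξ : ‖ξ‖ = a) (hη : a ^ 2 + ‖η‖ ^ 2 = 1) (ε : ℝ) (hε : 0 < ε) (hε1 : ε < 1)
    (t : ℝ) :
    (volume {z : X × Y | z ∈ tubeXY X Y ε ∧ ⟪z.1, ξ⟫ + ⟪z.2, η⟫ ≤ t}).toReal =
      cutF j m ε a t := by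
  rw [volume_tube_real j hX ξ η a ha hξ ε hε hε1 t, cutF]
  congr 1
  have ha1 : a ≤ 1 := by
    have : a ^ 2 ≤ 1 ^ 2 := by nlinarith [sq_nonneg ‖η‖]
    exact le_of_sq_le_sq this (by norm_num)
  have hP : finrank ℝ (WithLp 2 (ℝ × Y)) = m + 2 := by
    rw [(WithLp.linearEquiv 2 ℝ (ℝ × Y)).finrank_eq, finrank_prod, hY]
    simp
    omega
  let e : WithLp 2 (ℝ × Y) := WithLp.toLp 2 (1, 0)
  have he : ‖e‖ = 1 := by
    rw [← sq_eq_sq₀ (norm_nonneg _) (by norm_num), WithLp.prod_norm_sq_eq_of_L2]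
    simp [e]
  have hein : ∀ p : WithLp 2 (ℝ × Y), ⟪p, e⟫ = p.fst := by
    intro p
    rw [WithLp.prod_inner_apply]
    simp [e]
  let N : ℝ → WithLp 2 (ℝ × Y) := fun δ => WithLp.toLp 2 (δ * a, -η)
  have hN : ∀ δ : ℝ, δ = 1 ∨ δ = -1 → ‖N δ‖ = 1 := by
    intro δ hδ
    rw [← sq_eq_sq₀ (norm_nonneg _) (by norm_num), WithLp.prod_norm_sq_eq_of_L2]
    have h1 : (N δ).fst = δ * a := rfl
    have h2 : (N δ).snd = -η := rfl
    rw [h1, h2, norm_neg, Real.norm_eq_abs, sq_abs, mul_pow]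
    have : δ ^ 2 = 1 := by rcases hδ with h | h <;> rw [h] <;> norm_num
    rw [this, one_mul, one_pow, hη]
  have hNin : ∀ (δ : ℝ) (p : WithLp 2 (ℝ × Y)), ⟪p, N δ⟫ = δ * a * p.fst - ⟪p.snd, η⟫ := by
    intro δ p
    rw [WithLp.prod_inner_apply]
    show ⟪p.fst, δ * a⟫ + ⟪p.snd, -η⟫ = _
    rw [inner_neg_right]
    simp
    ring
  have hexp : ∀ p : WithLp 2 (ℝ × Y), Dval j (1 + p.fst) ((t - ⟪p.snd, η⟫) / a) =
      ∑ i ∈ Finset.range (j + 1), co j i * a⁻¹ ^ (2 * j - i + 1) *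
      ((1 + ⟪p, e⟫) ^ (i + 1) * (max (t + 1 * a + ⟪p, N 1⟫) 0) ^ (2 * j - i + 1) -
        (-1) ^ i * ((1 + ⟪p, e⟫) ^ (i + 1) *
          (max (t + (-1) * a + ⟪p, N (-1)⟫) 0) ^ (2 * j - i + 1))) := by
    intro p
    rw [Dval_expand j _ _ a ha]
    refine Finset.sum_congr rfl fun i _ => ?_
    rw [hein, hNin, hNin]
    have h1 : a * ((t - ⟪p.snd, η⟫) / a + (1 + p.fst)) =
        t + 1 * a + (1 * a * p.fst - ⟪p.snd, η⟫) := by
      rw [mul_add, mul_div_cancel₀ _ ha.ne']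
      ring
    have h2 : a * ((t - ⟪p.snd, η⟫) / a - (1 + p.fst)) =
        t + (-1) * a + ((-1) * a * p.fst - ⟪p.snd, η⟫) := by
      rw [mul_sub, mul_div_cancel₀ _ ha.ne']
      ring
    rw [h1, h2]
  simp only [hexp]
  have hcont : ∀ (α β : ℕ) (c δ : ℝ), IntegrableOn (fun p : WithLp 2 (ℝ × Y) =>
      (1 + ⟪p, e⟫) ^ α * (max (c + ⟪p, N δ⟫) 0) ^ β)
      (Metric.closedBall (0 : WithLp 2 (ℝ × Y)) ε) := by
    intro α β c δ
    have : Continuous fun p : WithLp 2 (ℝ × Y) =>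
      (1 + ⟪p, e⟫) ^ α * (max (c + ⟪p, N δ⟫) 0) ^ β := by fun_prop
    exact this.continuousOn.integrableOn_compact (isCompact_closedBall 0 ε)
  have hball : ∀ (δ : ℝ), (δ = 1 ∨ δ = -1) → ∀ α β : ℕ,
      ∫ p in Metric.closedBall (0 : WithLp 2 (ℝ × Y)) ε,
        (1 + ⟪p, e⟫) ^ α * (max (t + δ * a + ⟪p, N δ⟫) 0) ^ β = GG m ε α β δ a t := by
    intro δ hδ α β
    rw [ball_integral m hP (N δ) (hN δ hδ) e he ε hε α β (t + δ * a), hein (N δ)]
    exact GG_eq m hm ε hε α β δ a t hδ ha ha1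
  rw [integral_finsetSum]
  · refine Finset.sum_congr rfl fun i _ => ?_
    rw [integral_const_mul, integral_sub (hcont _ _ _ _) ((hcont _ _ _ _).const_mul _),
      integral_const_mul, hball 1 (Or.inl rfl), hball (-1) (Or.inr rfl)]
  · intro i _
    exact ((hcont _ _ _ _).sub ((hcont _ _ _ _).const_mul _)).const_mul _

end XY

end Pool.Agent.Lib.MP_b669e1_gt
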